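import Mathlib

/-!
Geometric Poisson structures of order three: definitions.

The local algebra of analytic functions is the ring `AnGerm n p` of germs at a point `p` of `ℝⁿ` of
real-analytic functions, with its partial derivatives `AnGerm.pd i`.  The
constructions below are written for a general commutative ring `R` with maps `δ i : R → R`
(`i : Fin n`); they are used for `R = AnGerm n p` and `δ = AnGerm.pd`.
-/

namespace Pool.Agent.H.MP_1a410c_mp

open MvPolynomial Filter Topology

/-- The ring of germs at `p` of real-valued functions on `ℝⁿ` that are real-analytic at `p`,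
as a subring of all germs. -/
def anGermSubring (n : ℕ) (p : Fin n → ℝ) : Subring (Germ (𝓝 p) ℝ) where
  carrier := {f | ∃ F : (Fin n → ℝ) → ℝ, AnalyticAt ℝ F p ∧ (F : Germ (𝓝 p) ℝ) = f}
  mul_mem' := by
    rintro _ _ ⟨F, hF, rfl⟩ ⟨G, hG, rfl⟩
    exact ⟨F * G, hF.mul hG, rfl⟩
  one_mem' := ⟨fun _ => 1, analyticAt_const, rfl⟩
  add_mem' := by
    rintro _ _ ⟨F, hF, rfl⟩ ⟨G, hG, rfl⟩
    exact ⟨F + G, hF.add hG, rfl⟩
  zero_mem' := ⟨fun _ => 0, analyticAt_const, rfl⟩
  neg_mem' := by
    rintro _ ⟨F, hF, rfl⟩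
    exact ⟨-F, hF.neg, rfl⟩

/-- The ring of germs at `p` of real-analytic functions on `ℝⁿ`. -/
def AnGerm (n : ℕ) (p : Fin n → ℝ) : Type := anGermSubring n p

noncomputable instance (n : ℕ) (p : Fin n → ℝ) : CommRing (AnGerm n p) :=
  (anGermSubring n p).toCommRing

namespace AnGerm

variable {n : ℕ} {p : Fin n → ℝ}

/-- The function `x ↦ ∂F/∂x_i (x)`. -/
noncomputable def pdFun (i : Fin n) (F : (Fin n → ℝ) → ℝ) : (Fin n → ℝ) → ℝ :=
  fun x => fderiv ℝ F x (Pi.single i 1)

lemma pdFun_congr (i : Fin n) {F G : (Fin n → ℝ) → ℝ} (h : F =ᶠ[𝓝 p] G) :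
    pdFun i F =ᶠ[𝓝 p] pdFun i G := by
  filter_upwards [h.fderiv (𝕜 := ℝ)] with x hx
  simp [pdFun, hx]

lemma pdFun_analytic (i : Fin n) {F : (Fin n → ℝ) → ℝ} (hF : AnalyticAt ℝ F p) :
    AnalyticAt ℝ (pdFun i F) p :=
  ((ContinuousLinearMap.apply ℝ ℝ (Pi.single i (1 : ℝ) : Fin n → ℝ)).analyticAt _).comp hF.fderiv

/-- Partial derivative of a germ. -/
noncomputable def pdGerm (i : Fin n) (f : Germ (𝓝 p) ℝ) : Germ (𝓝 p) ℝ :=
  Germ.map' (pdFun i) (fun _ _ h => pdFun_congr i h) f

lemma pdGerm_mem (i : Fin n) {f : Germ (𝓝 p) ℝ} (hf : f ∈ anGermSubring n p) :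
    pdGerm i f ∈ anGermSubring n p := by
  obtain ⟨F, hF, rfl⟩ := hf
  exact ⟨pdFun i F, pdFun_analytic i hF, rfl⟩

/-- The partial derivative `∂/∂u^i` of an analytic germ. -/
noncomputable def pd (i : Fin n) (f : AnGerm n p) : AnGerm n p :=
  ⟨pdGerm i f.1, pdGerm_mem i f.2⟩

/-- The germ of the constant function with value `c`. -/
def const (n : ℕ) (p : Fin n → ℝ) (c : ℝ) : AnGerm n p :=
  ⟨((fun _ => c : (Fin n → ℝ) → ℝ) : Germ (𝓝 p) ℝ), fun _ => c, analyticAt_const, rfl⟩

end AnGerm

section General

variable {n : ℕ} {R : Type} [CommRing R] (δ : Fin n → R → R)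

/-- Differential polynomials: polynomials in `u_x, u_xx, ...` with coefficients in `R`. The variable
`X (i, s)` stands for the `(s+1)`-st `x`-derivative of `u^i`. -/
abbrev DPoly (n : ℕ) (R : Type) [CommRing R] : Type := MvPolynomial (Fin n × ℕ) R

/-- Apply a map `d` to all coefficients of a differential polynomial. -/
noncomputable def coeffMap (d : R → R) (H : DPoly n R) : DPoly n R :=
  ∑ m ∈ H.support, monomial m (d (coeff m H))

/-- The partial derivative with respect to the `s`-th `x`-derivative of `u^i`: for `s = 0` it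
applies `∂/∂u^i` to the coefficients, for `s + 1` it is the derivative with respect to the
variable `X (i, s)`. -/
noncomputable def jetD (i : Fin n) : ℕ → DPoly n R → DPoly n R
  | 0, H => coeffMap (δ i) H
  | s + 1, H => pderiv (i, s) H

/-- The total derivative `D = d/dx`: the sum of `∑ᵢ u^i_x ∂/∂u^i` and of the derivation over `R`
that sends each variable `X (i, s)` to `X (i, s + 1)`. -/
noncomputable def totD (H : DPoly n R) : DPoly n R :=
  ∑ i, X (i, 0) * jetD δ i 0 H + mkDerivation R (fun q => (X (q.1, q.2 + 1) : DPoly n R)) H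

/-- The variational derivative `δH/δu^i = ∑ₛ (-D)^s (∂H/∂u^i_s)` of the functional `∫ H dx`
(only finitely many terms are nonzero). -/
noncomputable def euler (i : Fin n) (H : DPoly n R) : DPoly n R :=
  ∑ᶠ s : ℕ, (-1) ^ s * (totD δ)^[s] (jetD δ i s H)

/-- Matrix differential operators of order at most three: `P k i j` is the coefficient of
`D ^ k` in the entry `P^{ij}`. -/
abbrev Op3 (n : ℕ) (R : Type) [CommRing R] : Type := Fin 4 → Fin n → Fin n → DPoly n R

/-- Action of an operator: `(P f)^i = ∑ⱼ ∑ₖ P_k^{ij} D^k f_j`. -/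
noncomputable def act (P : Op3 n R) (f : Fin n → DPoly n R) (i : Fin n) : DPoly n R :=
  ∑ j, ∑ k : Fin 4, P k i j * (totD δ)^[k] (f j)

/-- The density `δH/δu^i P^{ij} δF/δu^j` of the bracket of the functionals with densities
`H` and `F`. -/
noncomputable def bracket (P : Op3 n R) (H F : DPoly n R) : DPoly n R :=
  ∑ i, euler δ i H * act δ P (fun j => euler δ j F) i

/-- The functional `∫ H dx` is zero, that is, the density `H` is a total derivative. -/
def IntegralZero (H : DPoly n R) : Prop := ∃ W, H = totD δ W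

/-- The bracket is skew-symmetric and satisfies the Jacobi identity on functionals (differential
polynomials modulo total derivatives). -/
def IsPoisson (P : Op3 n R) : Prop :=
  (∀ H F, IntegralZero δ (bracket δ P H F + bracket δ P F H)) ∧
  ∀ H F G, IntegralZero δ (bracket δ P (bracket δ P H F) G + bracket δ P (bracket δ P F G) H
    + bracket δ P (bracket δ P G H) F)

/-- Homogeneity of differential degree `3`: the coefficient of `D ^ k` has differential degree
`3 - k`, where the `s`-th derivative of `u^i` has differential degree `s`. -/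
def IsHomogeneous3 (P : Op3 n R) : Prop :=
  ∀ k i j, IsWeightedHomogeneous (fun v : Fin n × ℕ => v.2 + 1) (P k i j) (3 - (k : ℕ))

/-- The leading coefficient matrix `g^{ij}` (the coefficient of `D ^ 3`, which has
differential degree zero). -/
noncomputable def lead (P : Op3 n R) : Matrix (Fin n) (Fin n) R :=
  Matrix.of fun i j => coeff 0 (P 3 i j)

/-- Geometric Poisson structures of order three: homogeneous of differential degree three,
with invertible `g^{ij}`, skew-symmetric and satisfying the Jacobi identity. -/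
structure IsGeometricPoisson3 (P : Op3 n R) : Prop where
  homogeneous : IsHomogeneous3 P
  nondegenerate : IsUnit (lead P).det
  poisson : IsPoisson δ P

/-- The Jacobian matrix `∂v^a/∂u^i`. -/
def jacobian (v : Fin n → R) : Matrix (Fin n) (Fin n) R := Matrix.of fun a i => δ i (v a)

/-- The action of the operator rewritten in the coordinates `v`:
`∑ᵢⱼ (∂v^a/∂u^i) ∘ P^{ij} ∘ (∂v^b/∂u^j)`. -/
noncomputable def actIn (v : Fin n → R) (P : Op3 n R) (f : Fin n → DPoly n R)
    (a : Fin n) : DPoly n R :=
  ∑ i, C (jacobian δ v a i) * act δ P (fun j => ∑ b, C (jacobian δ v b j) * f b) i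

/-- The functions `v` are local coordinates (the Jacobian is invertible), and in these coordinates
the operator is `D (g^{ab} D + c^{ab}_r v^r_x) D`. -/
def HasFlatForm (P : Op3 n R) (v : Fin n → R) (g : Fin n → Fin n → R)
    (c : Fin n → Fin n → Fin n → R) : Prop :=
  IsUnit (jacobian δ v).det ∧ ∀ f a, actIn δ v P f a
    = ∑ b, totD δ (C (g a b) * totD δ (totD δ (f b))
        + (∑ r, C (c a b r) * totD δ (C (v r))) * totD δ (f b))

/-- Darboux-Poisson structures: in suitable local coordinates `v` the operator is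
`D (g^{ab} D + c^{ab}_r v^r_x) D` with all `c^{ab}_r = 0`. -/
def IsDarboux (P : Op3 n R) : Prop :=
  ∃ v g, HasFlatForm δ P v g (fun _ _ _ => 0)

end General

end Pool.Agent.H.MP_1a410c_mp
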