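import Mathlib

/-!
Abstract calculus of variations on a commutative algebra with commuting partial
derivatives `d i s` (derivative with respect to the `s`-th jet of the `i`-th field)
and a total derivative `D`.
-/

namespace Pool.Agent.H.MP_1a410c_mp

open Finset

/-- Abstract jet data on a commutative real algebra `A`. -/
structure JetData (ι : Type) (A : Type) [CommRing A] [Algebra ℝ A] where
  /-- partial derivative with respect to the `s`-th jet of the `i`-th field -/
  d : ι → ℕ → Derivation ℝ A A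
  /-- total derivative -/
  D : Derivation ℝ A A
  d_comm : ∀ i s j t a, d i s (d j t a) = d j t (d i s a)
  d_D_zero : ∀ i a, d i 0 (D a) = D (d i 0 a)
  d_D_succ : ∀ i s a, d i (s + 1) (D a) = D (d i (s + 1) a) + d i s a
  fin : ∀ a, ∃ N, ∀ i s, N ≤ s → d i s a = 0

namespace JetData

variable {ι : Type} [Fintype ι] {A : Type} [CommRing A] [Algebra ℝ A] (J : JetData ι A)

/-- iterates of the total derivative as linear maps -/
noncomputable def Dp (s : ℕ) : A →ₗ[ℝ] A := (J.D : A →ₗ[ℝ] A) ^ s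

omit [Fintype ι] in
@[simp] lemma Dp_zero (a : A) : J.Dp 0 a = a := by simp [Dp]

omit [Fintype ι] in
lemma Dp_succ (s : ℕ) (a : A) : J.Dp (s + 1) a = J.Dp s (J.D a) := by
  simp [Dp, pow_succ]

omit [Fintype ι] in
lemma Dp_succ' (s : ℕ) (a : A) : J.Dp (s + 1) a = J.D (J.Dp s a) := by
  simp [Dp, pow_succ']

/-- Euler operator -/
noncomputable def E (i : ι) (a : A) : A :=
  ∑ᶠ s : ℕ, (-1 : ℝ) ^ s • J.Dp s (J.d i s a)

/-- Evolutionary derivation -/
noncomputable def pr (Q : ι → A) (a : A) : A :=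
  ∑ᶠ s : ℕ, ∑ i, J.Dp s (Q i) * J.d i s a

omit [Fintype ι] in
lemma E_eq {i : ι} {a : A} {N : ℕ} (h : ∀ s, N ≤ s → J.d i s a = 0) :
    J.E i a = ∑ s ∈ range N, (-1 : ℝ) ^ s • J.Dp s (J.d i s a) := by
  unfold E
  apply finsum_eq_sum_of_support_subset
  intro s hs
  by_contra hN
  simp only [coe_range, Set.mem_Iio, not_lt] at hN
  apply hs
  simp [h s hN]

lemma pr_eq {Q : ι → A} {a : A} {N : ℕ} (h : ∀ i s, N ≤ s → J.d i s a = 0) :
    J.pr Q a = ∑ s ∈ range N, ∑ i, J.Dp s (Q i) * J.d i s a := by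
  unfold pr
  apply finsum_eq_sum_of_support_subset
  intro s hs
  by_contra hN
  simp only [coe_range, Set.mem_Iio, not_lt] at hN
  apply hs
  simp [fun i => h i s hN]

omit [Fintype ι] in
lemma E_add (i : ι) (a b : A) : J.E i (a + b) = J.E i a + J.E i b := by
  obtain ⟨N, hN⟩ := J.fin a
  obtain ⟨M, hM⟩ := J.fin b
  have ha : ∀ s, max N M ≤ s → J.d i s a = 0 := fun s hs => hN i s (le_trans (le_max_left _ _) hs)
  have hb : ∀ s, max N M ≤ s → J.d i s b = 0 := fun s hs => hM i s (le_trans (le_max_right _ _) hs)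
  have hab : ∀ s, max N M ≤ s → J.d i s (a + b) = 0 := fun s hs => by simp [ha s hs, hb s hs]
  rw [J.E_eq ha, J.E_eq hb, J.E_eq hab, ← sum_add_distrib]
  refine sum_congr rfl fun s _ => ?_
  rw [map_add, map_add, smul_add]

omit [Fintype ι] in
lemma E_smul (i : ι) (c : ℝ) (a : A) : J.E i (c • a) = c • J.E i a := by
  obtain ⟨N, hN⟩ := J.fin a
  have ha : ∀ s, N ≤ s → J.d i s a = 0 := fun s hs => hN i s hs
  have hab : ∀ s, N ≤ s → J.d i s (c • a) = 0 := fun s hs => by simp [ha s hs]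
  rw [J.E_eq ha, J.E_eq hab, smul_sum]
  refine sum_congr rfl fun s _ => ?_
  rw [Derivation.map_smul, map_smul, smul_comm]

omit [Fintype ι] in
/-- Euler operator kills total derivatives. -/
lemma E_D (i : ι) (a : A) : J.E i (J.D a) = 0 := by
  obtain ⟨N, hN⟩ := J.fin a
  have hD : ∀ s, N + 1 ≤ s → J.d i s (J.D a) = 0 := by
    intro s hs
    obtain ⟨t, rfl⟩ : ∃ t, s = t + 1 := ⟨s - 1, by omega⟩
    rw [J.d_D_succ, hN i (t + 1) (by omega), hN i t (by omega)]
    simp
  rw [J.E_eq hD]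
  have key : ∀ M : ℕ, ∑ s ∈ range (M + 1), (-1 : ℝ) ^ s • J.Dp s (J.d i s (J.D a))
      = (-1 : ℝ) ^ M • J.Dp (M + 1) (J.d i M a) := by
    intro M
    induction M with
    | zero => simp [J.d_D_zero, J.Dp_succ']
    | succ M ih =>
      rw [sum_range_succ, ih, J.d_D_succ, map_add, smul_add, ← J.Dp_succ, pow_succ]
      simp
  rw [key N, hN i N le_rfl]
  simp

lemma pr_add (Q : ι → A) (a b : A) : J.pr Q (a + b) = J.pr Q a + J.pr Q b := by
  obtain ⟨N, hN⟩ := J.fin a
  obtain ⟨M, hM⟩ := J.fin b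
  have ha : ∀ i s, max N M ≤ s → J.d i s a = 0 :=
    fun i s hs => hN i s (le_trans (le_max_left _ _) hs)
  have hb : ∀ i s, max N M ≤ s → J.d i s b = 0 :=
    fun i s hs => hM i s (le_trans (le_max_right _ _) hs)
  have hab : ∀ i s, max N M ≤ s → J.d i s (a + b) = 0 :=
    fun i s hs => by simp [ha i s hs, hb i s hs]
  rw [J.pr_eq ha, J.pr_eq hb, J.pr_eq hab, ← sum_add_distrib]
  refine sum_congr rfl fun s _ => ?_
  rw [← sum_add_distrib]
  refine sum_congr rfl fun i _ => ?_
  rw [map_add, mul_add]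

lemma pr_mul (Q : ι → A) (a b : A) : J.pr Q (a * b) = J.pr Q a * b + a * J.pr Q b := by
  obtain ⟨N, hN⟩ := J.fin a
  obtain ⟨M, hM⟩ := J.fin b
  have ha : ∀ i s, max N M ≤ s → J.d i s a = 0 :=
    fun i s hs => hN i s (le_trans (le_max_left _ _) hs)
  have hb : ∀ i s, max N M ≤ s → J.d i s b = 0 :=
    fun i s hs => hM i s (le_trans (le_max_right _ _) hs)
  have hab : ∀ i s, max N M ≤ s → J.d i s (a * b) = 0 :=
    fun i s hs => by simp [ha i s hs, hb i s hs]
  rw [J.pr_eq ha, J.pr_eq hb, J.pr_eq hab, sum_mul, mul_sum, ← sum_add_distrib]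
  refine sum_congr rfl fun s _ => ?_
  rw [sum_mul, mul_sum, ← sum_add_distrib]
  refine sum_congr rfl fun i _ => ?_
  rw [Derivation.leibniz, smul_eq_mul, smul_eq_mul]
  ring

lemma pr_smul (Q : ι → A) (c : ℝ) (a : A) : J.pr Q (c • a) = c • J.pr Q a := by
  obtain ⟨N, hN⟩ := J.fin a
  have hab : ∀ i s, N ≤ s → J.d i s (c • a) = 0 := fun i s hs => by simp [hN i s hs]
  rw [J.pr_eq hN, J.pr_eq hab, smul_sum]
  refine sum_congr rfl fun s _ => ?_
  rw [smul_sum]
  refine sum_congr rfl fun i _ => ?_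
  rw [Derivation.map_smul, mul_smul_comm]

/-- `pr Q` as a linear map. -/
noncomputable def prL (Q : ι → A) : A →ₗ[ℝ] A where
  toFun := J.pr Q
  map_add' := J.pr_add Q
  map_smul' := J.pr_smul Q

@[simp] lemma prL_apply (Q : ι → A) (a : A) : J.prL Q a = J.pr Q a := rfl

lemma pr_sum {κ : Type} (S : Finset κ) (Q : ι → A) (f : κ → A) :
    J.pr Q (∑ k ∈ S, f k) = ∑ k ∈ S, J.pr Q (f k) := by
  exact map_sum (J.prL Q) f S

lemma pr_sub (Q : ι → A) (a b : A) : J.pr Q (a - b) = J.pr Q a - J.pr Q b :=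
  map_sub (J.prL Q) a b

/-- evolutionary derivations commute with the total derivative -/
lemma pr_D (Q : ι → A) (a : A) : J.pr Q (J.D a) = J.D (J.pr Q a) := by
  obtain ⟨N, hN⟩ := J.fin a
  have hD : ∀ i s, N + 1 ≤ s → J.d i s (J.D a) = 0 := by
    intro i s hs
    obtain ⟨t, rfl⟩ : ∃ t, s = t + 1 := ⟨s - 1, by omega⟩
    rw [J.d_D_succ, hN i (t + 1) (by omega), hN i t (by omega)]
    simp
  rw [J.pr_eq hD, J.pr_eq hN]
  have key : ∀ M : ℕ, ∑ s ∈ range (M + 1), ∑ i, J.Dp s (Q i) * J.d i s (J.D a)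
      = J.D (∑ s ∈ range M, ∑ i, J.Dp s (Q i) * J.d i s a)
        + ∑ i, J.Dp M (Q i) * J.D (J.d i M a) := by
    intro M
    induction M with
    | zero => simp [J.d_D_zero]
    | succ M ih =>
      rw [sum_range_succ, ih, sum_range_succ, map_add, add_assoc, add_assoc,
        map_sum J.D _ univ, ← sum_add_distrib, ← sum_add_distrib]
      congr 1
      refine sum_congr rfl fun i _ => ?_
      rw [J.d_D_succ, Derivation.leibniz, smul_eq_mul, smul_eq_mul, J.Dp_succ']
      ring
  rw [key N]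
  simp [fun i => hN i N le_rfl]

lemma pr_Dp (Q : ι → A) (s : ℕ) (a : A) : J.pr Q (J.Dp s a) = J.Dp s (J.pr Q a) := by
  induction s with
  | zero => simp
  | succ s ih => rw [J.Dp_succ', J.pr_D, ih, ← J.Dp_succ']

/-- commutator of evolutionary derivations -/
lemma pr_comm (Q R : ι → A) (a : A) :
    J.pr Q (J.pr R a) - J.pr R (J.pr Q a)
      = J.pr (fun i => J.pr Q (R i) - J.pr R (Q i)) a := by
  obtain ⟨N, hN⟩ := J.fin a
  have hd : ∀ j t, ∀ i s, N ≤ s → J.d i s (J.d j t a) = 0 := by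
    intro j t i s hs
    rw [J.d_comm, hN i s hs, map_zero]
  have key : ∀ Q R : ι → A, J.pr Q (J.pr R a)
      = ∑ s ∈ range N, ∑ i, J.Dp s (J.pr Q (R i)) * J.d i s a
        + ∑ s ∈ range N, ∑ i, ∑ t ∈ range N, ∑ j,
            J.Dp s (R i) * (J.Dp t (Q j) * J.d j t (J.d i s a)) := by
    intro Q R
    rw [J.pr_eq (Q := R) hN, J.pr_sum, ← sum_add_distrib]
    refine sum_congr rfl fun s _ => ?_
    rw [J.pr_sum, ← sum_add_distrib]
    refine sum_congr rfl fun i _ => ?_
    rw [J.pr_mul, J.pr_Dp, J.pr_eq (a := J.d i s a) (hd i s), mul_sum]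
    simp_rw [mul_sum]
  rw [key Q R, key R Q, J.pr_eq hN]
  have hsym : ∑ s ∈ range N, ∑ i, ∑ t ∈ range N, ∑ j,
            J.Dp s (R i) * (J.Dp t (Q j) * J.d j t (J.d i s a))
      = ∑ s ∈ range N, ∑ i, ∑ t ∈ range N, ∑ j,
            J.Dp s (Q i) * (J.Dp t (R j) * J.d j t (J.d i s a)) := by
    calc _ = ∑ s ∈ range N, ∑ t ∈ range N, ∑ i, ∑ j,
            J.Dp s (R i) * (J.Dp t (Q j) * J.d j t (J.d i s a)) := by
          refine sum_congr rfl fun s _ => ?_
          rw [sum_comm]
      _ = ∑ t ∈ range N, ∑ s ∈ range N, ∑ j, ∑ i,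
            J.Dp s (R i) * (J.Dp t (Q j) * J.d j t (J.d i s a)) := by
          rw [sum_comm]
          refine sum_congr rfl fun t _ => ?_
          refine sum_congr rfl fun s _ => ?_
          rw [sum_comm]
      _ = ∑ t ∈ range N, ∑ s ∈ range N, ∑ j, ∑ i,
            J.Dp t (Q j) * (J.Dp s (R i) * J.d i s (J.d j t a)) := by
          refine sum_congr rfl fun t _ => ?_
          refine sum_congr rfl fun s _ => ?_
          refine sum_congr rfl fun j _ => ?_
          refine sum_congr rfl fun i _ => ?_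
          rw [J.d_comm j t i s]
          ring
      _ = _ := by
          refine sum_congr rfl fun t _ => ?_
          rw [sum_comm]
  rw [hsym, add_sub_add_right_eq_sub, ← sum_sub_distrib]
  refine sum_congr rfl fun s _ => ?_
  rw [← sum_sub_distrib]
  refine sum_congr rfl fun i _ => ?_
  rw [map_sub, sub_mul]

/-- the space of functionals -/
abbrev Fnl : Type := A ⧸ LinearMap.range (J.D : A →ₗ[ℝ] A)

/-- projection to functionals -/
noncomputable def q : A →ₗ[ℝ] J.Fnl := Submodule.mkQ _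

omit [Fintype ι] in
lemma q_D (a : A) : J.q (J.D a) = 0 := by
  rw [q, Submodule.mkQ_apply, Submodule.Quotient.mk_eq_zero]
  exact ⟨a, rfl⟩

omit [Fintype ι] in
lemma q_eq_zero {a : A} (h : J.q a = 0) : ∃ b, J.D b = a := by
  rw [q, Submodule.mkQ_apply, Submodule.Quotient.mk_eq_zero] at h
  obtain ⟨b, hb⟩ := h
  exact ⟨b, hb⟩

omit [Fintype ι] in
lemma q_parts (a b : A) : J.q (J.D a * b) = - J.q (a * J.D b) := by
  have h := J.q_D (a * b)
  rw [Derivation.leibniz, smul_eq_mul, smul_eq_mul, map_add] at h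
  rw [mul_comm (J.D a) b]
  exact eq_neg_of_add_eq_zero_right h

omit [Fintype ι] in
lemma q_parts_iter (s : ℕ) (a b : A) :
    J.q (J.Dp s a * b) = (-1 : ℝ) ^ s • J.q (a * J.Dp s b) := by
  induction s generalizing a b with
  | zero => simp
  | succ s ih =>
    rw [J.Dp_succ', J.q_parts, ih, ← J.Dp_succ, pow_succ]
    simp

/-- first variation formula -/
lemma q_pr (Q : ι → A) (a : A) : J.q (J.pr Q a) = ∑ i, J.q (Q i * J.E i a) := by
  obtain ⟨N, hN⟩ := J.fin a
  rw [J.pr_eq hN, map_sum]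
  simp_rw [fun i => J.E_eq (hN i), map_sum, mul_sum, map_sum]
  rw [sum_comm]
  refine sum_congr rfl fun i _ => ?_
  refine sum_congr rfl fun s _ => ?_
  rw [J.q_parts_iter, mul_smul_comm, map_smul]

/-- self-adjointness of the linearization of an Euler expression -/
lemma helmholtz (Q R : ι → A) (a : A) :
    ∑ i, J.q (Q i * J.pr R (J.E i a)) = ∑ i, J.q (R i * J.pr Q (J.E i a)) := by
  have key : ∀ Q R : ι → A, J.q (J.pr R (J.pr Q a))
      = ∑ i, J.q (J.pr R (Q i) * J.E i a) + ∑ i, J.q (Q i * J.pr R (J.E i a)) := by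
    intro Q R
    have h1 : J.q (J.pr Q a - ∑ i, Q i * J.E i a) = 0 := by
      rw [map_sub, J.q_pr, map_sum, sub_self]
    obtain ⟨c, hc⟩ := J.q_eq_zero h1
    have h2 : J.pr Q a = ∑ i, Q i * J.E i a + J.D c := by
      rw [hc]; ring
    rw [h2, J.pr_add, J.pr_D, map_add, J.q_D, add_zero, J.pr_sum, map_sum, ← sum_add_distrib]
    refine sum_congr rfl fun i _ => ?_
    rw [J.pr_mul, map_add]
  have h1 := key Q R
  have h2 := key R Q
  have h3 := congrArg J.q (J.pr_comm R Q a)
  rw [map_sub, h1, h2, J.q_pr] at h3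
  have h4 : ∑ i, J.q ((J.pr R (Q i) - J.pr Q (R i)) * J.E i a)
      = ∑ i, J.q (J.pr R (Q i) * J.E i a) - ∑ i, J.q (J.pr Q (R i) * J.E i a) := by
    rw [← sum_sub_distrib]
    refine sum_congr rfl fun i _ => ?_
    rw [sub_mul, map_sub]
  rw [h4] at h3
  have : ∑ i, J.q (Q i * J.pr R (J.E i a)) - ∑ i, J.q (R i * J.pr Q (J.E i a)) = 0 := by
    have := sub_eq_zero.mpr h3
    rw [← this]
    abel
  exact sub_eq_zero.mp this

/-- matrix differential operator of order at most three, `c k i j` is the coefficient of `D^k` -/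
abbrev Op (ι A : Type) : Type := Fin 4 → ι → ι → A

/-- action of an operator -/
noncomputable def app (P : Op ι A) (f : ι → A) (i : ι) : A :=
  ∑ j, ∑ k : Fin 4, P k i j * J.Dp k (f j)

/-- bracket of two densities -/
noncomputable def br (P : Op ι A) (a b : A) : A :=
  ∑ i, J.E i a * J.app P (fun j => J.E j b) i

/-- trilinear form of the Jacobi identity -/
noncomputable def tri (P : Op ι A) (f g h : ι → A) : A :=
  ∑ i, f i * J.app (fun k i j => J.pr (J.app P h) (P k i j)) g i

lemma pr_app (P : Op ι A) (Q f : ι → A) (i : ι) :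
    J.pr Q (J.app P f i) = J.app (fun k i j => J.pr Q (P k i j)) f i
      + J.app P (fun j => J.pr Q (f j)) i := by
  unfold app
  rw [J.pr_sum, ← sum_add_distrib]
  refine sum_congr rfl fun j _ => ?_
  rw [J.pr_sum, ← sum_add_distrib]
  refine sum_congr rfl fun k _ => ?_
  rw [J.pr_mul, J.pr_Dp]

/-- criterion: skew-adjointness and the cyclic identity give the Jacobi identity -/
theorem jacobi (P : Op ι A)
    (hskew : ∀ f g : ι → A, ∑ i, J.q (f i * J.app P g i) = - ∑ i, J.q (g i * J.app P f i))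
    (hjac : ∀ f g h : ι → A, J.q (J.tri P f g h) + J.q (J.tri P g h f) + J.q (J.tri P h f g) = 0)
    (a b c : A) :
    J.q (J.br P (J.br P a b) c) + J.q (J.br P (J.br P b c) a) + J.q (J.br P (J.br P c a) b)
      = 0 := by
  have key : ∀ a b c : A, J.q (J.br P (J.br P a b) c)
      = ∑ i, J.q (J.app P (fun j => J.E j b) i * J.pr (J.app P fun j => J.E j c) (J.E i a))
        + J.q (J.tri P (fun j => J.E j a) (fun j => J.E j b) (fun j => J.E j c))
        - ∑ i, J.q (J.app P (fun j => J.E j a) i * J.pr (J.app P fun j => J.E j c) (J.E i b)) := by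
    intro a b c
    have h1 : J.q (J.br P (J.br P a b) c)
        = J.q (J.pr (J.app P fun j => J.E j c) (J.br P a b)) := by
      rw [J.q_pr, br, map_sum]
      refine sum_congr rfl fun i _ => ?_
      rw [mul_comm]
    rw [h1, br, J.pr_sum, map_sum]
    have h2 : ∀ i, J.q (J.pr (J.app P fun j => J.E j c) (J.E i a * J.app P (fun j => J.E j b) i))
        = J.q (J.app P (fun j => J.E j b) i * J.pr (J.app P fun j => J.E j c) (J.E i a))
          + J.q (J.E i a * J.app (fun k i j => J.pr (J.app P fun j => J.E j c) (P k i j))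
              (fun j => J.E j b) i)
          + J.q (J.E i a * J.app P (fun j => J.pr (J.app P fun j => J.E j c) (J.E j b)) i) := by
      intro i
      rw [J.pr_mul, J.pr_app, mul_add, map_add, map_add, ← add_assoc, mul_comm]
    simp_rw [h2]
    rw [sum_add_distrib, sum_add_distrib, tri, map_sum,
      hskew (fun j => J.E j a) (fun j => J.pr (J.app P fun j => J.E j c) (J.E j b)),
      ← sub_eq_add_neg]
    congr 1
    refine sum_congr rfl fun i _ => ?_
    rw [mul_comm]
  rw [key a b c, key b c a, key c a b]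
  have e1 := J.helmholtz (J.app P (fun j => J.E j b)) (J.app P fun j => J.E j c) a
  have e2 := J.helmholtz (J.app P (fun j => J.E j c)) (J.app P fun j => J.E j a) b
  have e3 := J.helmholtz (J.app P (fun j => J.E j a)) (J.app P fun j => J.E j b) c
  rw [e1, e2, e3]
  have hj := hjac (fun j => J.E j a) (fun j => J.E j b) (fun j => J.E j c)
  have : ∀ x y z s t u : J.Fnl, s + t + u = 0 →
      x + s - y + (y + t - z) + (z + u - x) = 0 := by
    intro x y z s t u h
    have : x + s - y + (y + t - z) + (z + u - x) = s + t + u := by abel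
    rw [this, h]
  exact this _ _ _ _ _ _ hj

end JetData

end Pool.Agent.H.MP_1a410c_mp
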