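import Mathlib
import Pool.Agent.H.MP_1a410c_mp.Jet

/-!
Differential polynomials with analytic coefficients.
-/

namespace Pool.Agent.H.MP_1a410c_mp

open MvPolynomial

section CoeffD

variable {σ : Type} {R : Type} [CommRing R] [Algebra ℝ R]

/-- Apply a derivation of the coefficient ring to every coefficient of a polynomial. -/
noncomputable def coeffFun (δ : Derivation ℝ R R) (P : MvPolynomial σ R) : MvPolynomial σ R :=
  ∑ m ∈ P.support, monomial m (δ (coeff m P))

lemma coeff_coeffFun (δ : Derivation ℝ R R) (P : MvPolynomial σ R) (m : σ →₀ ℕ) :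
    coeff m (coeffFun δ P) = δ (coeff m P) := by
  classical
  rw [coeffFun, coeff_sum]
  simp only [coeff_monomial]
  rw [Finset.sum_ite_eq']
  split_ifs with h
  · rfl
  · rw [notMem_support_iff.mp h, map_zero]

/-- The derivation of the polynomial ring acting by `δ` on coefficients and killing all
the variables. -/
noncomputable def coeffD (δ : Derivation ℝ R R) :
    Derivation ℝ (MvPolynomial σ R) (MvPolynomial σ R) where
  toFun := coeffFun δ
  map_add' P Q := by
    ext m
    simp [coeff_coeffFun]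
  map_smul' c P := by
    ext m
    rw [coeff_coeffFun, coeff_smul, RingHom.id_apply, coeff_smul, coeff_coeffFun,
      Derivation.map_smul]
  map_one_eq_zero' := by
    classical
    ext m
    change coeff m (coeffFun δ 1) = coeff m 0
    rw [coeff_coeffFun, coeff_one]
    split_ifs <;> simp
  leibniz' P Q := by
    classical
    ext m
    change coeff m (coeffFun δ (P * Q)) = coeff m (P * coeffFun δ Q + Q * coeffFun δ P)
    rw [coeff_coeffFun, coeff_mul, map_sum, mul_comm Q, coeff_add, coeff_mul, coeff_mul,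
      ← Finset.sum_add_distrib]
    refine Finset.sum_congr rfl fun x _ => ?_
    rw [coeff_coeffFun, coeff_coeffFun, Derivation.leibniz, smul_eq_mul, smul_eq_mul]
    ring

lemma coeff_coeffD (δ : Derivation ℝ R R) (P : MvPolynomial σ R) (m : σ →₀ ℕ) :
    coeff m (coeffD δ P) = δ (coeff m P) := coeff_coeffFun δ P m

@[simp] lemma coeffD_C (δ : Derivation ℝ R R) (r : R) :
    coeffD δ (C r : MvPolynomial σ R) = C (δ r) := by
  classical
  ext m
  rw [coeff_coeffD, coeff_C, coeff_C]
  split_ifs <;> simp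

@[simp] lemma coeffD_X (δ : Derivation ℝ R R) (i : σ) :
    coeffD δ (X i : MvPolynomial σ R) = 0 := by
  classical
  ext m
  rw [coeff_coeffD, coeff_X]
  split_ifs <;> simp

lemma deriv_ext (d₁ d₂ : Derivation ℝ (MvPolynomial σ R) (MvPolynomial σ R))
    (hC : ∀ r, d₁ (C r) = d₂ (C r)) (hX : ∀ i, d₁ (X i) = d₂ (X i)) (a : MvPolynomial σ R) :
    d₁ a = d₂ a := by
  induction a using MvPolynomial.induction_on with
  | C r => exact hC r
  | add p q hp hq => rw [map_add, map_add, hp, hq]
  | mul_X p i hp => rw [Derivation.leibniz, Derivation.leibniz, hp, hX]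

end CoeffD

section Gen

variable {n : ℕ} {R : Type} [CommRing R] [Algebra ℝ R] (δ : Fin n → Derivation ℝ R R)

/-- Partial derivative with respect to the `s`-th `x`-derivative of `u^i`, on polynomials in the
variables `X (i, s) = u^i_{s+1}` with coefficients in `R`. -/
noncomputable def gJetD (i : Fin n) :
    ℕ → Derivation ℝ (MvPolynomial (Fin n × ℕ) R) (MvPolynomial (Fin n × ℕ) R)
  | 0 => coeffD (δ i)
  | s + 1 => (pderiv (i, s)).restrictScalars ℝ

/-- Total derivative. -/
noncomputable def gTotD :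
    Derivation ℝ (MvPolynomial (Fin n × ℕ) R) (MvPolynomial (Fin n × ℕ) R) :=
  (mkDerivation R fun q : Fin n × ℕ =>
      (X (q.1, q.2 + 1) : MvPolynomial (Fin n × ℕ) R)).restrictScalars ℝ
    + ∑ i, (X (i, 0) : MvPolynomial (Fin n × ℕ) R) • coeffD (δ i)

lemma gTotD_apply (P : MvPolynomial (Fin n × ℕ) R) :
    gTotD δ P = mkDerivation R (fun q : Fin n × ℕ =>
      (X (q.1, q.2 + 1) : MvPolynomial (Fin n × ℕ) R)) P
      + ∑ i, X (i, 0) * coeffD (δ i) P := by
  rw [gTotD, Derivation.add_apply, Derivation.restrictScalars_apply]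
  congr 1
  have : ∀ (S : Finset (Fin n)),
      (∑ i ∈ S, (X (i, 0) : MvPolynomial (Fin n × ℕ) R) • coeffD (δ i)) P
        = ∑ i ∈ S, X (i, 0) * coeffD (δ i) P := by
    intro S
    classical
    induction S using Finset.induction_on with
    | empty => simp
    | insert a S ha ih =>
      rw [Finset.sum_insert ha, Finset.sum_insert ha, Derivation.add_apply, ih,
        Derivation.smul_apply, smul_eq_mul]
  exact this _

lemma gTotD_C (r : R) :
    gTotD δ (C r) = ∑ i, X (i, 0) * C (δ i r) := by
  rw [gTotD_apply, derivation_C, zero_add]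
  simp

lemma gTotD_X (q : Fin n × ℕ) : gTotD δ (X q) = X (q.1, q.2 + 1) := by
  rw [gTotD_apply, mkDerivation_X]
  simp

lemma gJetD_comm (hδ : ∀ i j r, δ i (δ j r) = δ j (δ i r)) (i : Fin n) (s : ℕ) (j : Fin n) (t : ℕ)
    (a : MvPolynomial (Fin n × ℕ) R) :
    gJetD δ i s (gJetD δ j t a) = gJetD δ j t (gJetD δ i s a) := by
  classical
  have h := deriv_ext ⁅gJetD δ i s, gJetD δ j t⁆ 0 ?_ ?_ a
  · rw [Derivation.commutator_apply] at h
    exact sub_eq_zero.mp h
  · intro r
    rw [Derivation.commutator_apply]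
    cases s <;> cases t <;> simp [gJetD, hδ i j]
  · intro q
    rw [Derivation.commutator_apply]
    cases s <;> cases t <;> simp [gJetD, Pi.single_apply, apply_ite]

lemma gJetD_totD_zero (hδ : ∀ i j r, δ i (δ j r) = δ j (δ i r)) (i : Fin n)
    (a : MvPolynomial (Fin n × ℕ) R) :
    gJetD δ i 0 (gTotD δ a) = gTotD δ (gJetD δ i 0 a) := by
  have h := deriv_ext ⁅gJetD δ i 0, gTotD δ⁆ 0 ?_ ?_ a
  · rw [Derivation.commutator_apply] at h
    exact sub_eq_zero.mp h
  · intro r
    rw [Derivation.commutator_apply, gTotD_C]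
    simp [gJetD, gTotD_C, hδ i]
  · intro q
    rw [Derivation.commutator_apply, gTotD_X]
    simp [gJetD]

lemma gJetD_totD_succ (i : Fin n) (s : ℕ) (a : MvPolynomial (Fin n × ℕ) R) :
    gJetD δ i (s + 1) (gTotD δ a) = gTotD δ (gJetD δ i (s + 1) a) + gJetD δ i s a := by
  classical
  have h := deriv_ext ⁅gJetD δ i (s + 1), gTotD δ⁆ (gJetD δ i s) ?_ ?_ a
  · rw [Derivation.commutator_apply] at h
    rw [← h]
    ring
  · intro r
    rw [Derivation.commutator_apply, gTotD_C]
    cases s with
    | zero => simp [gJetD, Pi.single_apply]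
    | succ s => simp [gJetD, Pi.single_apply]
  · intro q
    obtain ⟨j, t⟩ := q
    rw [Derivation.commutator_apply, gTotD_X]
    cases s with
    | zero => simp [gJetD, Pi.single_apply, apply_ite]
    | succ s =>
      simp [gJetD, Pi.single_apply, apply_ite]
      split_ifs with h
      · intro h'
        exact absurd h.2 (h' h.1)
      · intro h1 h2
        exact absurd ⟨h1, h2⟩ h

lemma gJetD_fin (a : MvPolynomial (Fin n × ℕ) R) :
    ∃ N, ∀ (i : Fin n) (s : ℕ), N ≤ s → gJetD δ i s a = 0 := by
  classical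
  refine ⟨a.vars.sup (fun q => q.2) + 2, fun i s hs => ?_⟩
  obtain ⟨t, rfl⟩ : ∃ t, s = t + 1 := ⟨s - 1, by omega⟩
  change pderiv (i, t) a = 0
  apply pderiv_eq_zero_of_notMem_vars
  intro hmem
  have := Finset.le_sup (f := fun q : Fin n × ℕ => q.2) hmem
  simp only at this
  omega

/-- the jet data of the algebra of differential polynomials -/
noncomputable def gJet (hδ : ∀ i j r, δ i (δ j r) = δ j (δ i r)) :
    JetData (Fin n) (MvPolynomial (Fin n × ℕ) R) where
  d := gJetD δ
  D := gTotD δ
  d_comm := gJetD_comm δ hδ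
  d_D_zero := gJetD_totD_zero δ hδ
  d_D_succ := gJetD_totD_succ δ
  fin := gJetD_fin δ

end Gen

end Pool.Agent.H.MP_1a410c_mp
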