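import Mathlib
import Pool.Agent.H.MP_1a410c_mp.Jet
import Pool.Agent.H.MP_1a410c_mp.DiffPoly
import Pool.Agent.H.MP_1a410c_mp.Defs

/-!
A criterion for the Poisson property and operators in flat form.
-/

namespace Pool.Agent.H.MP_1a410c_mp

open MvPolynomial

section Bridge

variable {n : ℕ} {R : Type} [CommRing R] [Algebra ℝ R] (d : Fin n → Derivation ℝ R R)

/-- the underlying functions of a family of derivations -/
def fn (i : Fin n) (r : R) : R := d i r

lemma jetD_eq (i : Fin n) (s : ℕ) (H : DPoly n R) : jetD (fn d) i s H = gJetD d i s H := by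
  cases s <;> rfl

lemma totD_eq (H : DPoly n R) : totD (fn d) H = gTotD d H := by
  rw [gTotD_apply, totD, add_comm]
  rfl

lemma totD_eq' : totD (fn d) = fun H => gTotD d H := funext (totD_eq d)

variable (hd : ∀ i j r, d i (d j r) = d j (d i r))

lemma iter_eq (k : ℕ) (H : DPoly n R) : (totD (fn d))^[k] H = (gJet d hd).Dp k H := by
  induction k generalizing H with
  | zero => simp
  | succ k ih =>
    rw [Function.iterate_succ_apply, ih, JetData.Dp_succ, totD_eq]
    rfl

lemma euler_eq (i : Fin n) (H : DPoly n R) : euler (fn d) i H = (gJet d hd).E i H := by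
  unfold euler JetData.E
  congr 1
  funext s
  rw [jetD_eq, iter_eq d hd, Algebra.smul_def, map_pow, map_neg, map_one]
  rfl

lemma act_eq (P : Op3 n R) (f : Fin n → DPoly n R) (i : Fin n) :
    act (fn d) P f i = (gJet d hd).app P f i := by
  unfold act JetData.app
  refine Finset.sum_congr rfl fun j _ => ?_
  refine Finset.sum_congr rfl fun k _ => ?_
  rw [iter_eq d hd]

lemma bracket_eq (P : Op3 n R) (H F : DPoly n R) :
    bracket (fn d) P H F = (gJet d hd).br P H F := by
  unfold bracket JetData.br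
  refine Finset.sum_congr rfl fun i _ => ?_
  rw [act_eq d hd, euler_eq d hd]
  congr 2
  funext j
  exact euler_eq d hd j F

lemma integralZero_iff (H : DPoly n R) : IntegralZero (fn d) H ↔ (gJet d hd).q H = 0 := by
  constructor
  · rintro ⟨W, rfl⟩
    rw [totD_eq]
    exact (gJet d hd).q_D W
  · intro h
    obtain ⟨W, hW⟩ := (gJet d hd).q_eq_zero h
    exact ⟨W, by rw [totD_eq]; exact hW.symm⟩

/-- The variation of the coefficients of an operator along an evolutionary field. -/
noncomputable def vary (Q : Fin n → DPoly n R) (P : Op3 n R) : Op3 n R :=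
  fun k i j => (gJet d hd).pr Q (P k i j)

theorem isPoisson_of (P : Op3 n R)
    (hskew : ∀ f g : Fin n → DPoly n R,
      ∑ i, (gJet d hd).q (f i * (gJet d hd).app P g i)
        = - ∑ i, (gJet d hd).q (g i * (gJet d hd).app P f i))
    (hjac : ∀ f g h : Fin n → DPoly n R,
      (∑ i, (gJet d hd).q (f i * (gJet d hd).app (vary d hd ((gJet d hd).app P h) P) g i))
      + (∑ i, (gJet d hd).q (g i * (gJet d hd).app (vary d hd ((gJet d hd).app P f) P) h i))
      + (∑ i, (gJet d hd).q (h i * (gJet d hd).app (vary d hd ((gJet d hd).app P g) P) f i)) = 0) :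
    IsPoisson (fn d) P := by
  constructor
  · intro a b
    rw [integralZero_iff d hd, bracket_eq d hd, bracket_eq d hd, map_add, JetData.br,
      JetData.br, map_sum, map_sum,
      hskew (fun i => (gJet d hd).E i a) (fun i => (gJet d hd).E i b), neg_add_cancel]
  · intro a b c
    rw [integralZero_iff d hd, bracket_eq d hd, bracket_eq d hd, bracket_eq d hd, bracket_eq d hd,
      bracket_eq d hd, bracket_eq d hd, map_add, map_add]
    refine (gJet d hd).jacobi P hskew ?_ a b c
    intro f g h
    have e : ∀ f g h : Fin n → DPoly n R, (gJet d hd).q ((gJet d hd).tri P f g h)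
        = ∑ i, (gJet d hd).q
            (f i * (gJet d hd).app (vary d hd ((gJet d hd).app P h) P) g i) := by
      intro f g h
      rw [JetData.tri, map_sum]
      rfl
    rw [e, e, e]
    exact hjac f g h

/-- The operator `D (α D + β) D`. -/
noncomputable def opGen (α β : Fin n → Fin n → DPoly n R) : Op3 n R := fun k i j =>
  match k with
  | 0 => 0
  | 1 => gTotD d (β i j)
  | 2 => gTotD d (α i j) + β i j
  | 3 => α i j

lemma app_opGen (α β : Fin n → Fin n → DPoly n R) (f : Fin n → DPoly n R) (i : Fin n) :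
    (gJet d hd).app (opGen d α β) f i
      = ∑ j, gTotD d (α i j * gTotD d (gTotD d (f j)) + β i j * gTotD d (f j)) := by
  unfold JetData.app
  refine Finset.sum_congr rfl fun j _ => ?_
  rw [Fin.sum_univ_four]
  change (0 : DPoly n R) * _ + gTotD d (β i j) * (gJet d hd).Dp 1 (f j)
    + (gTotD d (α i j) + β i j) * (gJet d hd).Dp 2 (f j) + α i j * (gJet d hd).Dp 3 (f j) = _
  have e1 : (gJet d hd).Dp 1 (f j) = gTotD d (f j) := by
    rw [JetData.Dp_succ, JetData.Dp_zero]; rfl
  have e2 : (gJet d hd).Dp 2 (f j) = gTotD d (gTotD d (f j)) := by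
    rw [JetData.Dp_succ', JetData.Dp_succ, JetData.Dp_zero]; rfl
  have e3 : (gJet d hd).Dp 3 (f j) = gTotD d (gTotD d (gTotD d (f j))) := by
    rw [JetData.Dp_succ', JetData.Dp_succ', JetData.Dp_succ, JetData.Dp_zero]; rfl
  rw [e1, e2, e3, map_add, Derivation.leibniz, Derivation.leibniz]
  simp only [smul_eq_mul]
  ring

lemma vary_opGen (Q : Fin n → DPoly n R) (α β : Fin n → Fin n → DPoly n R) :
    vary d hd Q (opGen d α β) = opGen d (fun i j => (gJet d hd).pr Q (α i j))
      (fun i j => (gJet d hd).pr Q (β i j)) := by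
  funext k i j
  have h0 : (gJet d hd).pr Q 0 = 0 := by
    have := (gJet d hd).pr_sub Q 0 0
    simpa using this
  match k with
  | 0 => exact h0
  | 1 => exact (gJet d hd).pr_D Q (β i j)
  | 2 =>
    change (gJet d hd).pr Q (gTotD d (α i j) + β i j) = gTotD d ((gJet d hd).pr Q (α i j))
      + (gJet d hd).pr Q (β i j)
    rw [(gJet d hd).pr_add]
    congr 1
    exact (gJet d hd).pr_D Q (α i j)
  | 3 => rfl

lemma q_opGen (α β : Fin n → Fin n → DPoly n R) (f g : Fin n → DPoly n R) :
    ∑ i, (gJet d hd).q (f i * (gJet d hd).app (opGen d α β) g i)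
      = - ∑ i, ∑ j, (gJet d hd).q (gTotD d (f i) *
          (α i j * gTotD d (gTotD d (g j)) + β i j * gTotD d (g j))) := by
  rw [← Finset.sum_neg_distrib]
  refine Finset.sum_congr rfl fun i _ => ?_
  rw [app_opGen, Finset.mul_sum, map_sum, ← Finset.sum_neg_distrib]
  refine Finset.sum_congr rfl fun j _ => ?_
  have h := (gJet d hd).q_parts (f i)
    (α i j * gTotD d (gTotD d (g j)) + β i j * gTotD d (g j))
  change (gJet d hd).q (gTotD d (f i) * (α i j * gTotD d (gTotD d (g j))
    + β i j * gTotD d (g j))) = - (gJet d hd).q (f i * gTotD d (α i j * gTotD d (gTotD d (g j))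
    + β i j * gTotD d (g j))) at h
  rw [h, neg_neg]

lemma skew_opGen (α β : Fin n → Fin n → DPoly n R) (hα : ∀ i j, α i j = α j i)
    (hβ : ∀ i j, gTotD d (α i j) = β i j + β j i) (f g : Fin n → DPoly n R) :
    ∑ i, (gJet d hd).q (f i * (gJet d hd).app (opGen d α β) g i)
      = - ∑ i, (gJet d hd).q (g i * (gJet d hd).app (opGen d α β) f i) := by
  rw [q_opGen, q_opGen]
  congr 1
  rw [Finset.sum_comm (f := fun i j => (gJet d hd).q (gTotD d (g i) *
          (α i j * gTotD d (gTotD d (f j)) + β i j * gTotD d (f j)))), ← Finset.sum_neg_distrib]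
  refine Finset.sum_congr rfl fun i _ => ?_
  rw [← Finset.sum_neg_distrib]
  refine Finset.sum_congr rfl fun j _ => ?_
  have h : (gJet d hd).q (gTotD d (α i j * gTotD d (f i) * gTotD d (g j))) = 0 :=
    (gJet d hd).q_D (α i j * gTotD d (f i) * gTotD d (g j))
  rw [eq_neg_iff_add_eq_zero, ← map_add, ← h]
  congr 1
  rw [Derivation.leibniz, Derivation.leibniz]
  simp only [smul_eq_mul]
  rw [hβ, hα j i]
  ring

lemma pr_C (Q : Fin n → DPoly n R) (r : R) :
    (gJet d hd).pr Q (C r) = ∑ i, Q i * C (d i r) := by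
  have hN : ∀ (i : Fin n) (s : ℕ), 1 ≤ s → (gJet d hd).d i s (C r) = 0 := by
    intro i s hs
    obtain ⟨t, rfl⟩ : ∃ t, s = t + 1 := ⟨s - 1, by omega⟩
    change pderiv (i, t) (C r) = 0
    simp
  rw [(gJet d hd).pr_eq hN, Finset.sum_range_one]
  refine Finset.sum_congr rfl fun i _ => ?_
  rw [JetData.Dp_zero]
  congr 1
  exact coeffD_C _ _

end Bridge

end Pool.Agent.H.MP_1a410c_mp
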