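import Mathlib
import Pool.Agent.H.MP_1a410c_mp.Criterion

/-!
The example in dimension four.
-/

namespace Pool.Agent.H.MP_1a410c_mp

open MvPolynomial

section Const

variable {n : ℕ} {R : Type} [CommRing R] [Algebra ℝ R] (d : Fin n → Derivation ℝ R R)
  (hd : ∀ i j r, d i (d j r) = d j (d i r))

/-- real constants in the ring of differential polynomials -/
noncomputable def K (n : ℕ) (R : Type) [CommRing R] [Algebra ℝ R] (a : ℝ) : DPoly n R :=
  C (algebraMap ℝ R a)

@[simp] lemma D_K (a : ℝ) : gTotD d (K n R a) = 0 := by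
  rw [K, gTotD_C]
  simp

lemma D_K_mul (a : ℝ) (x : DPoly n R) : gTotD d (K n R a * x) = K n R a * gTotD d x := by
  rw [Derivation.leibniz, D_K]
  simp

@[simp] lemma pr_K (Q : Fin n → DPoly n R) (a : ℝ) : (gJet d hd).pr Q (K n R a) = 0 := by
  rw [K, pr_C]
  simp

lemma pr_K_mul (Q : Fin n → DPoly n R) (a : ℝ) (x : DPoly n R) :
    (gJet d hd).pr Q (K n R a * x) = K n R a * (gJet d hd).pr Q x := by
  rw [(gJet d hd).pr_mul, pr_K, zero_mul, zero_add]

lemma K_zero : (K n R 0) = 0 := by simp [K]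

lemma pr_zero (Q : Fin n → DPoly n R) : (gJet d hd).pr Q 0 = 0 := by
  have h := pr_K d hd Q 0
  rwa [K_zero] at h

lemma K_two_mul (b : ℝ) : K n R (2 * b) = K n R b + K n R b := by
  rw [two_mul, K, map_add, map_add, K]

lemma K_neg (b : ℝ) : K n R (-b) = - K n R b := by
  simp [K]

variable (u : Fin n → R) (hu : ∀ i j, d i (u j) = if i = j then 1 else 0)

include hu

lemma D_U (i : Fin n) : gTotD d (C (u i)) = X (i, 0) := by
  rw [gTotD_C]
  simp [hu, apply_ite]

lemma pr_U (Q : Fin n → DPoly n R) (i : Fin n) : (gJet d hd).pr Q (C (u i)) = Q i := by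
  rw [pr_C]
  simp [hu, apply_ite]

lemma pr_X0 (Q : Fin n → DPoly n R) (i : Fin n) :
    (gJet d hd).pr Q (X (i, 0)) = gTotD d (Q i) := by
  rw [← D_U d u hu, ← pr_U d hd u hu Q i]
  exact (gJet d hd).pr_D Q (C (u i))

end Const

section Ex

variable {R : Type} [CommRing R] [Algebra ℝ R] (d : Fin 4 → Derivation ℝ R R)
  (hd : ∀ i j r, d i (d j r) = d j (d i r)) (u : Fin 4 → R)
  (hu : ∀ i j, d i (u j) = if i = j then 1 else 0)

/-- contravariant leading coefficients -/
noncomputable def gEx (u : Fin 4 → R) (a b : ℝ) : Fin 4 → Fin 4 → R :=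
  ![![0, 0, algebraMap ℝ R a, 0],
    ![0, 0, 0, algebraMap ℝ R a],
    ![algebraMap ℝ R a, 0, algebraMap ℝ R (2 * b) * u 1, algebraMap ℝ R (-b) * u 0],
    ![0, algebraMap ℝ R a, algebraMap ℝ R (-b) * u 0, 0]]

/-- lower order coefficients -/
noncomputable def cEx (R : Type) [CommRing R] [Algebra ℝ R] (b : ℝ) : Fin 4 → Fin 4 → DPoly 4 R :=
  ![![0, 0, 0, 0],
    ![0, 0, 0, 0],
    ![0, 0, K 4 R b * X (1, 0), 0],
    ![0, 0, K 4 R (-b) * X (0, 0), 0]]

/-- the pencil of operators -/
noncomputable def opEx (a b : ℝ) : Op3 4 R :=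
  opGen d (fun i j => C (gEx u a b i j)) (cEx R b)

/-- leading coefficients as differential polynomials -/
lemma C_gEx (a b : ℝ) (i j : Fin 4) : (C (gEx u a b i j) : DPoly 4 R)
    = (![![0, 0, K 4 R a, 0], ![0, 0, 0, K 4 R a],
      ![K 4 R a, 0, K 4 R (2 * b) * C (u 1), K 4 R (-b) * C (u 0)],
      ![0, K 4 R a, K 4 R (-b) * C (u 0), 0]] : Fin 4 → Fin 4 → DPoly 4 R) i j := by
  fin_cases i <;> fin_cases j <;> simp [gEx, K]

include hd hu

theorem isPoisson_opEx (a b : ℝ) : IsPoisson (fn d) (opEx d u a b) := by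
  apply isPoisson_of d hd
  · apply skew_opGen
    · intro i j
      simp only [C_gEx]
      fin_cases i <;> fin_cases j <;> rfl
    · intro i j
      simp only [C_gEx]
      fin_cases i <;> fin_cases j <;>
        simp [cEx, D_U d u hu, K_two_mul, K_neg]
      ring
  · intro f g h
    have key : ∀ f g h : Fin 4 → DPoly 4 R,
        ∑ i, (gJet d hd).q (f i * (gJet d hd).app
          (vary d hd ((gJet d hd).app (opEx d u a b) h) (opEx d u a b)) g i)
        = (gJet d hd).q (K 4 R a * K 4 R b * (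
          - 2 * gTotD d (f 2) * gTotD d (gTotD d (g 2)) * gTotD d (gTotD d (gTotD d (h 3)))
          - gTotD d (f 2) * gTotD d (g 2) * gTotD d (gTotD d (gTotD d (gTotD d (h 3))))
          + gTotD d (f 2) * gTotD d (gTotD d (gTotD d (h 2))) * gTotD d (gTotD d (g 3))
          + gTotD d (f 3) * gTotD d (gTotD d (g 2)) * gTotD d (gTotD d (gTotD d (h 2)))
          + gTotD d (f 3) * gTotD d (g 2) *
              gTotD d (gTotD d (gTotD d (gTotD d (h 2)))))) := by
      intro f g h
      have h0 : (gJet d hd).app (opEx d u a b) h 0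
          = K 4 R a * gTotD d (gTotD d (gTotD d (h 2))) := by
        rw [opEx, app_opGen, Fin.sum_univ_four]
        simp only [C_gEx]
        simp [cEx]
      have h1 : (gJet d hd).app (opEx d u a b) h 1
          = K 4 R a * gTotD d (gTotD d (gTotD d (h 3))) := by
        rw [opEx, app_opGen, Fin.sum_univ_four]
        simp only [C_gEx]
        simp [cEx]
      rw [opEx, vary_opGen, ← opEx, q_opGen]
      simp only [C_gEx]
      simp only [← map_sum, ← map_neg]
      congr 1
      simp only [Fin.sum_univ_four, cEx, Matrix.cons_val_zero, Matrix.cons_val_one,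
        Matrix.cons_val, pr_zero, pr_K, pr_K_mul, pr_U d hd u hu, pr_X0 d hd u hu, h0, h1, D_K_mul]
      simp only [K_two_mul, K_neg]
      ring
    rw [key f g h, key g h f, key h f g, ← map_add, ← map_add]
    have hfin : (gJet d hd).q (gTotD d (K 4 R a * K 4 R b * (
      - gTotD d (gTotD d (gTotD d (h 3))) * gTotD d (f 2) * gTotD d (g 2)
      + gTotD d (gTotD d (gTotD d (h 2))) * gTotD d (f 3) * gTotD d (g 2)
      - gTotD d (gTotD d (gTotD d (f 3))) * gTotD d (g 2) * gTotD d (h 2)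
      + gTotD d (gTotD d (gTotD d (f 2))) * gTotD d (g 3) * gTotD d (h 2)
      - gTotD d (gTotD d (gTotD d (g 3))) * gTotD d (h 2) * gTotD d (f 2)
      + gTotD d (gTotD d (gTotD d (g 2))) * gTotD d (h 3) * gTotD d (f 2)
      + gTotD d (gTotD d (h 3)) * (gTotD d (gTotD d (f 2)) * gTotD d (g 2)
          - gTotD d (f 2) * gTotD d (gTotD d (g 2)))
      + gTotD d (gTotD d (g 3)) * (gTotD d (gTotD d (h 2)) * gTotD d (f 2)
          - gTotD d (h 2) * gTotD d (gTotD d (f 2)))
      + gTotD d (gTotD d (f 3)) * (gTotD d (gTotD d (g 2)) * gTotD d (h 2)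
          - gTotD d (g 2) * gTotD d (gTotD d (h 2)))))) = 0 := (gJet d hd).q_D _
    rw [← hfin]
    congr 1
    simp only [Derivation.leibniz, smul_eq_mul, map_add, map_sub, map_neg, D_K]
    ring

end Ex

end Pool.Agent.H.MP_1a410c_mp
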