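import Mathlib
import Pool.Agent.H.MP_1a410c_mp.Defs

/-!
Germs of real-analytic functions and their partial derivatives: auxiliary facts.
-/

namespace Pool.Agent.H.MP_1a410c_mp

open Filter Topology

namespace AnGerm

variable {n : ℕ} {p : Fin n → ℝ}

/-- The germ at `p` of a function analytic at `p`. -/
def mk (F : (Fin n → ℝ) → ℝ) (hF : AnalyticAt ℝ F p) : AnGerm n p :=
  ⟨(F : Germ (𝓝 p) ℝ), F, hF, rfl⟩

/-- Constant germs make the analytic germs a real algebra. -/
noncomputable instance instAlg : Algebra ℝ (AnGerm n p) :=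
  RingHom.toAlgebra
    { toFun := const n p
      map_one' := rfl
      map_mul' := fun _ _ => rfl
      map_zero' := rfl
      map_add' := fun _ _ => rfl }

lemma algebraMap_eq (c : ℝ) : algebraMap ℝ (AnGerm n p) c = const n p c := rfl

lemma const_eq (c : ℝ) : const n p c = mk (fun _ => c) analyticAt_const := rfl

/-- The value at `p` of a germ. -/
def valueAt (f : AnGerm n p) : ℝ := f.1.value

lemma ind {motive : AnGerm n p → Prop}
    (h : ∀ (F : (Fin n → ℝ) → ℝ) (hF : AnalyticAt ℝ F p), motive (mk F hF)) (f : AnGerm n p) :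
    motive f := by
  obtain ⟨f, F, hF, rfl⟩ := f
  exact h F hF

lemma mk_eq {F G : (Fin n → ℝ) → ℝ} {hF : AnalyticAt ℝ F p} {hG : AnalyticAt ℝ G p} :
    mk F hF = mk G hG ↔ F =ᶠ[𝓝 p] G :=
  Subtype.ext_iff.trans Germ.coe_eq

lemma mk_congr {F G : (Fin n → ℝ) → ℝ} (hF : AnalyticAt ℝ F p) (hG : AnalyticAt ℝ G p)
    (h : F =ᶠ[𝓝 p] G) : mk F hF = mk G hG := mk_eq.mpr h

lemma mk_mul {F G : (Fin n → ℝ) → ℝ} {hF : AnalyticAt ℝ F p} {hG : AnalyticAt ℝ G p} :
    mk F hF * mk G hG = mk (F * G) (hF.mul hG) := rfl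

lemma ev_diff {F : (Fin n → ℝ) → ℝ} (hF : AnalyticAt ℝ F p) :
    ∀ᶠ x in 𝓝 p, DifferentiableAt ℝ F x := by
  filter_upwards [hF.eventually_analyticAt] with x hx using hx.differentiableAt

lemma pdFun_add (i : Fin n) {F G : (Fin n → ℝ) → ℝ} (hF : AnalyticAt ℝ F p)
    (hG : AnalyticAt ℝ G p) : pdFun i (F + G) =ᶠ[𝓝 p] pdFun i F + pdFun i G := by
  filter_upwards [ev_diff hF, ev_diff hG] with x hx hx'
  simp [pdFun, fderiv_add hx hx']

lemma pdFun_mul (i : Fin n) {F G : (Fin n → ℝ) → ℝ} (hF : AnalyticAt ℝ F p)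
    (hG : AnalyticAt ℝ G p) :
    pdFun i (F * G) =ᶠ[𝓝 p] F * pdFun i G + G * pdFun i F := by
  filter_upwards [ev_diff hF, ev_diff hG] with x hx hx'
  simp [pdFun, fderiv_mul hx hx']

lemma pdFun_const (i : Fin n) (c : ℝ) : pdFun i (fun _ : Fin n → ℝ => c) = fun _ => 0 := by
  funext x
  simp [pdFun]

/-- The partial derivative `∂/∂u^i` as a derivation of the ring of analytic germs. -/
noncomputable def pdD (i : Fin n) : Derivation ℝ (AnGerm n p) (AnGerm n p) where
  toFun := pd i
  map_add' f g := by
    induction f using ind with | h F hF => ?_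
    induction g using ind with | h G hG => ?_
    exact mk_congr (pdFun_analytic i (hF.add hG))
      ((pdFun_analytic i hF).add (pdFun_analytic i hG)) (pdFun_add i hF hG)
  map_smul' c f := by
    induction f using ind with | h F hF => ?_
    exact mk_congr (pdFun_analytic i (analyticAt_const.mul hF))
      (analyticAt_const.mul (pdFun_analytic i hF)) ((pdFun_mul i analyticAt_const hF).trans
        (Eventually.of_forall fun x => by
          simp [pdFun]))
  map_one_eq_zero' :=
    mk_congr (pdFun_analytic i (analyticAt_const (v := (1 : ℝ))))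
      (analyticAt_const (v := (0 : ℝ))) (by rw [pdFun_const])
  leibniz' f g := by
    induction f using ind with | h F hF => ?_
    induction g using ind with | h G hG => ?_
    exact mk_congr (pdFun_analytic i (hF.mul hG))
      ((hF.mul (pdFun_analytic i hG)).add (hG.mul (pdFun_analytic i hF))) (pdFun_mul i hF hG)

lemma coe_pdD (i : Fin n) : ⇑(pdD i : Derivation ℝ (AnGerm n p) (AnGerm n p)) = pd i := rfl

lemma pd_eq : (pd : Fin n → AnGerm n p → AnGerm n p) = fun i => ⇑(pdD (p := p) i) := rfl

lemma pd_mk (i : Fin n) (F : (Fin n → ℝ) → ℝ) (hF : AnalyticAt ℝ F p) :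
    pd i (mk F hF) = mk (pdFun i F) (pdFun_analytic i hF) := rfl

lemma pd_comm (i j : Fin n) (f : AnGerm n p) : pdD i (pdD j f) = pdD j (pdD i f) := by
  change pd i (pd j f) = pd j (pd i f)
  induction f using ind with | h F hF => ?_
  rw [pd_mk, pd_mk, pd_mk, pd_mk, mk_eq]
  filter_upwards [hF.eventually_analyticAt] with x hx
  have h2 : DifferentiableAt ℝ (fderiv ℝ F) x := hx.fderiv.differentiableAt
  have hs : IsSymmSndFDerivAt ℝ F x := (hx.contDiffAt (n := 2)).isSymmSndFDerivAt (by simp)
  have key : ∀ k l : Fin n, pdFun k (pdFun l F) x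
      = fderiv ℝ (fderiv ℝ F) x (Pi.single k 1) (Pi.single l 1) := by
    intro k l
    have : pdFun l F = fun y => (fderiv ℝ F y) (Pi.single l 1) := rfl
    rw [pdFun, this, fderiv_clm_apply h2 (differentiableAt_const _)]
    simp
  rw [key, key]
  exact hs.eq _ _

lemma analyticAt_coord (j : Fin n) : AnalyticAt ℝ (fun x : Fin n → ℝ => x j) p :=
  (ContinuousLinearMap.proj (R := ℝ) (φ := fun _ : Fin n => ℝ) j).analyticAt p

/-- The coordinate function `u^j`. -/
noncomputable def coord (j : Fin n) : AnGerm n p := mk (fun x => x j) (analyticAt_coord j)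

lemma pd_coord (i j : Fin n) : pdD i (coord j : AnGerm n p) = if i = j then 1 else 0 := by
  change pd i (coord j : AnGerm n p) = _
  have h : pdFun i (fun x : Fin n → ℝ => x j) = fun _ => if i = j then 1 else 0 := by
    funext x
    have : (fun x : Fin n → ℝ => x j)
        = (ContinuousLinearMap.proj (R := ℝ) (φ := fun _ : Fin n => ℝ) j) := rfl
    rw [pdFun, this, ContinuousLinearMap.fderiv]
    simp only [ContinuousLinearMap.proj_apply, Pi.single_apply, eq_comm]
  rw [coord, pd_mk]
  split_ifs with hij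
  · exact mk_congr _ (analyticAt_const (v := (1 : ℝ))) (by rw [h]; simp [hij])
  · exact mk_congr _ (analyticAt_const (v := (0 : ℝ))) (by rw [h]; simp [hij])

/-- value at `p` as a ring homomorphism -/
def valHom : AnGerm n p →+* ℝ where
  toFun := valueAt
  map_one' := rfl
  map_mul' f g := by
    induction f using ind with | h F hF => ?_
    induction g using ind with | h G hG => ?_
    rfl
  map_zero' := rfl
  map_add' f g := by
    induction f using ind with | h F hF => ?_
    induction g using ind with | h G hG => ?_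
    rfl

end AnGerm

end Pool.Agent.H.MP_1a410c_mp
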