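import Mathlib
import Pool.Agent.H.MP_1a410c_mp.Example
import Pool.Agent.H.MP_1a410c_mp.Germs

/-!
Darboux and non-Darboux members of the pencil.
-/

namespace Pool.Agent.H.MP_1a410c_mp

open MvPolynomial

section Hom

variable {R : Type} [CommRing R] [Algebra ℝ R] (d : Fin 4 → Derivation ℝ R R) (u : Fin 4 → R)

lemma hom_K_X (b : ℝ) (v : Fin 4 × ℕ) :
    IsWeightedHomogeneous (fun v : Fin 4 × ℕ => v.2 + 1) (K 4 R b * X v) (v.2 + 1) := by
  have h := (isWeightedHomogeneous_C (fun v : Fin 4 × ℕ => v.2 + 1)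
    (algebraMap ℝ R b)).mul
    (isWeightedHomogeneous_X R (fun v : Fin 4 × ℕ => v.2 + 1) v)
  simpa [K] using h

lemma cEx_cases (b : ℝ) (i j : Fin 4) : cEx R b i j = 0 ∨ cEx R b i j = K 4 R b * X (1, 0)
    ∨ cEx R b i j = K 4 R (-b) * X (0, 0) := by
  fin_cases i <;> fin_cases j <;> simp [cEx]

lemma isHomogeneous_opEx (a b : ℝ) : IsHomogeneous3 (opEx d u a b) := by
  have hc : ∀ i j, IsWeightedHomogeneous (fun v : Fin 4 × ℕ => v.2 + 1) (cEx R b i j) 1 := by
    intro i j
    rcases cEx_cases (R := R) b i j with h | h | h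
    · rw [h]; exact isWeightedHomogeneous_zero _ _ _
    · rw [h]; exact hom_K_X _ (1, 0)
    · rw [h]; exact hom_K_X _ (0, 0)
  have hc' : ∀ i j, IsWeightedHomogeneous (fun v : Fin 4 × ℕ => v.2 + 1)
      (gTotD d (cEx R b i j)) 2 := by
    intro i j
    rcases cEx_cases (R := R) b i j with h | h | h
    · rw [h, map_zero]; exact isWeightedHomogeneous_zero _ _ _
    · rw [h, D_K_mul, gTotD_X]; exact hom_K_X _ (1, 1)
    · rw [h, D_K_mul, gTotD_X]; exact hom_K_X _ (0, 1)
  have hg : ∀ i j, IsWeightedHomogeneous (fun v : Fin 4 × ℕ => v.2 + 1)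
      (gTotD d (C (gEx u a b i j))) 1 := by
    intro i j
    rw [gTotD_C]
    apply IsWeightedHomogeneous.sum
    intro k _
    have h := (isWeightedHomogeneous_X R (fun v : Fin 4 × ℕ => v.2 + 1) (k, 0)).mul
      (isWeightedHomogeneous_C (fun v : Fin 4 × ℕ => v.2 + 1)
        (d k (gEx u a b i j)))
    simpa using h
  intro k i j
  match k with
  | 0 => exact isWeightedHomogeneous_zero _ _ _
  | 1 => exact hc' i j
  | 2 => exact (hg i j).add (hc i j)
  | 3 => exact isWeightedHomogeneous_C _ _

lemma lead_opEx (a b : ℝ) : lead (opEx d u a b) = Matrix.of (gEx u a b) := by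
  ext i j
  change coeff 0 (C (gEx u a b i j)) = gEx u a b i j
  simp

lemma nondegenerate_opEx (a b : ℝ) (ha : a ≠ 0) : IsUnit (lead (opEx d u a b)).det := by
  have h : Matrix.det (Matrix.of (gEx u a b)) = algebraMap ℝ R (a ^ 4) := by
    simp [Matrix.det_succ_row_zero, Fin.sum_univ_succ, Fin.succAbove, gEx]
    ring
  rw [lead_opEx, h]
  exact (IsUnit.mk0 _ (pow_ne_zero 4 ha)).map (algebraMap ℝ R)

theorem isGeometric_opEx (hd : ∀ i j r, d i (d j r) = d j (d i r))
    (hu : ∀ i j, d i (u j) = if i = j then 1 else 0) (a b : ℝ) (ha : a ≠ 0) :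
    IsGeometricPoisson3 (fn d) (opEx d u a b) :=
  ⟨isHomogeneous_opEx d u a b, nondegenerate_opEx d u a b ha, isPoisson_opEx d hd u hu a b⟩

lemma gEx_add (a b a' b' t : ℝ) (i j : Fin 4) :
    gEx u a b i j + algebraMap ℝ R t * gEx u a' b' i j = gEx u (a + t * a') (b + t * b') i j := by
  fin_cases i <;> fin_cases j <;> simp [gEx] <;> ring

lemma cEx_add (b b' t : ℝ) (i j : Fin 4) :
    cEx R b i j + K 4 R t * cEx R b' i j = cEx R (b + t * b') i j := by
  fin_cases i <;> fin_cases j <;> simp [cEx, K] <;> ring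

lemma opEx_add (a b a' b' t : ℝ) :
    opEx d u a b + algebraMap ℝ R t • opEx d u a' b' = opEx d u (a + t * a') (b + t * b') := by
  have h3 : ∀ i j, (C (gEx u a b i j) : DPoly 4 R) + K 4 R t * C (gEx u a' b' i j)
      = C (gEx u (a + t * a') (b + t * b') i j) := by
    intro i j
    rw [K, ← map_mul, ← map_add, gEx_add]
  have hs : ∀ x : DPoly 4 R, algebraMap ℝ R t • x = K 4 R t * x := fun x => smul_eq_C_mul _ _
  funext k i j
  match k with
  | 0 =>
    change (0 : DPoly 4 R) + algebraMap ℝ R t • (0 : DPoly 4 R) = 0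
    simp
  | 1 =>
    change gTotD d (cEx R b i j) + algebraMap ℝ R t • gTotD d (cEx R b' i j)
      = gTotD d (cEx R (b + t * b') i j)
    rw [hs, ← D_K_mul, ← map_add, cEx_add]
  | 2 =>
    change gTotD d (C (gEx u a b i j)) + cEx R b i j
      + algebraMap ℝ R t • (gTotD d (C (gEx u a' b' i j)) + cEx R b' i j)
      = gTotD d (C (gEx u (a + t * a') (b + t * b') i j)) + cEx R (b + t * b') i j
    rw [hs, ← h3, ← cEx_add, map_add, D_K_mul, mul_add]
    abel
  | 3 =>
    change C (gEx u a b i j) + algebraMap ℝ R t • C (gEx u a' b' i j)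
      = C (gEx u (a + t * a') (b + t * b') i j)
    rw [hs, h3]

omit [Algebra ℝ R] in
lemma lead_smul (c : R) (P : Op3 4 R) (i j : Fin 4) : lead (c • P) i j = c * lead P i j := by
  change coeff 0 (c • P 3 i j) = c * coeff 0 (P 3 i j)
  rw [coeff_smul, smul_eq_mul]

/-- members of the pencil are not proportional (`φ` is the value at the base point) -/
lemma not_prop (φ : R →+* ℝ) (hφ : ∀ c : ℝ, φ (algebraMap ℝ R c) = c)
    (hu : ∀ i j, d i (u j) = if i = j then 1 else 0) (c : ℝ) :
    opEx d u 1 0 ≠ algebraMap ℝ R c • opEx d u 1 1 ∧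
      opEx d u 1 1 ≠ algebraMap ℝ R c • opEx d u 1 0 := by
  have v : ∀ (a b : ℝ), φ (lead (opEx d u a b) 0 2) = a := by
    intro a b
    rw [lead_opEx, Matrix.of_apply]
    have : gEx u a b 0 2 = algebraMap ℝ R a := rfl
    rw [this, hφ]
  have w : ∀ (a b : ℝ), φ (d 1 (lead (opEx d u a b) 2 2)) = 2 * b := by
    intro a b
    rw [lead_opEx, Matrix.of_apply]
    have : gEx u a b 2 2 = algebraMap ℝ _ (2 * b) * u 1 := rfl
    rw [this, Derivation.leibniz, Derivation.map_algebraMap, hu, if_pos rfl,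
      smul_zero, add_zero, smul_eq_mul, mul_one, hφ]
  have ds : ∀ x : R, d 1 (algebraMap ℝ R c * x) = algebraMap ℝ R c * d 1 x := by
    intro x
    rw [Derivation.leibniz, Derivation.map_algebraMap]
    simp
  constructor
  · intro h
    have h1 := v 1 0
    have h2 := w 1 0
    rw [h, lead_smul, map_mul, hφ, v] at h1
    rw [h, lead_smul, ds, map_mul, hφ, w] at h2
    linarith
  · intro h
    have h2 := w 1 1
    rw [h, lead_smul, ds, map_mul, hφ, w] at h2
    linarith

end Hom

section Ker

variable {ι : Type} {A : Type} [CommRing A] [Algebra ℝ A] (J : JetData ι A)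

/-- elements killed by the total derivative are killed by all jet derivatives -/
lemma JetData.ker {a : A} (h : J.D a = 0) (i : ι) (s : ℕ) : J.d i s a = 0 := by
  obtain ⟨N, hN⟩ := J.fin a
  by_contra hne
  have key : ∀ k, J.d i (s + k) a ≠ 0 := by
    intro k
    induction k with
    | zero => exact hne
    | succ k ih =>
      intro h0
      apply ih
      have := J.d_D_succ i (s + k) a
      rw [h, map_zero] at this
      have h0' : J.d i (s + k + 1) a = 0 := h0
      rw [h0', map_zero, zero_add] at this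
      exact this.symm
  exact key N (hN i (s + N) (by omega))

end Ker

section Darboux

variable {n : ℕ} {R : Type} [CommRing R] [Algebra ℝ R] (d : Fin n → Derivation ℝ R R)
  (hd : ∀ i j r, d i (d j r) = d j (d i r))

lemma gJetD_succ_C (i : Fin n) (s : ℕ) (r : R) :
    gJetD d i (s + 1) (C r) = 0 := by
  change pderiv (i, s) (C r) = 0
  simp

include hd in
lemma d_eq_zero_of_D3 {r : R}
    (h : gTotD d (gTotD d (gTotD d (C r))) = 0) (k : Fin n) : d k r = 0 := by
  have h1 := (gJet d hd).ker h k 2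
  change gJetD d k 2 (gTotD d (gTotD d (C r))) = 0 at h1
  rw [gJetD_totD_succ, gJetD_totD_succ, gJetD_totD_succ, gJetD_succ_C, gJetD_succ_C] at h1
  simp only [map_zero, zero_add] at h1
  have h2 : gJetD d k 0 (C r) = C (d k r) := coeffD_C _ _
  rw [h2] at h1
  exact C_injective _ _ (by rw [h1, map_zero])

lemma D_C_eq_zero {r : R} (h : ∀ k, d k r = 0) : gTotD d (C r) = 0 := by
  rw [gTotD_C]
  simp [h]

/-- in the original coordinates the operator is unchanged -/
lemma actIn_coord (u : Fin n → R) (hu : ∀ i j, d i (u j) = if i = j then 1 else 0)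
    (P : Op3 n R) (f : Fin n → DPoly n R) (a : Fin n) :
    actIn (fn d) u P f a = act (fn d) P f a := by
  have h1 : ∀ i j : Fin n, (C (jacobian (fn d) u j i) : DPoly n R)
      = if i = j then 1 else 0 := by
    intro i j
    rw [jacobian, Matrix.of_apply, fn, hu]
    split_ifs <;> simp
  unfold actIn
  simp only [h1, ite_mul, one_mul, zero_mul, Finset.sum_ite_eq', Finset.sum_ite_eq,
    Finset.mem_univ, if_true]

lemma isUnit_jacobian_coord (u : Fin n → R) (hu : ∀ i j, d i (u j) = if i = j then 1 else 0) :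
    IsUnit (jacobian (fn d) u).det := by
  have : jacobian (fn d) u = 1 := by
    ext a i
    rw [jacobian, Matrix.of_apply, fn, hu, Matrix.one_apply]
    by_cases h : a = i
    · subst h
      rw [if_pos rfl]
    · rw [if_neg h, if_neg (fun h' => h h'.symm)]
  rw [this, Matrix.det_one]
  exact isUnit_one

end Darboux

section DarbouxEx

variable {R : Type} [CommRing R] [Algebra ℝ R] (d : Fin 4 → Derivation ℝ R R)
  (hd : ∀ i j r, d i (d j r) = d j (d i r)) (u : Fin 4 → R)
  (hu : ∀ i j, d i (u j) = if i = j then 1 else 0)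

/-- flat lower order coefficients -/
noncomputable def cFlat (R : Type) [CommRing R] [Algebra ℝ R] (b : ℝ) (i j r : Fin 4) : R :=
  if i = 2 ∧ j = 2 ∧ r = 1 then algebraMap ℝ _ b
  else if i = 3 ∧ j = 2 ∧ r = 0 then algebraMap ℝ _ (-b) else 0

include hu in
lemma cFlat_sum (b : ℝ) (i j : Fin 4) :
    ∑ r, C (cFlat R b i j r) * gTotD d (C (u r)) = cEx R b i j := by
  have h : ∀ r, gTotD d (C (u r)) = X (r, 0) := D_U d u hu
  simp only [h, Fin.sum_univ_four]
  fin_cases i <;> fin_cases j <;> simp [cFlat, cEx, K]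

lemma act_opEx (a b : ℝ) (f : Fin 4 → DPoly 4 R) (i : Fin 4)
    (hd : ∀ i j r, d i (d j r) = d j (d i r)) :
    act (fn d) (opEx d u a b) f i = ∑ j, gTotD d (C (gEx u a b i j) * gTotD d (gTotD d (f j))
      + cEx R b i j * gTotD d (f j)) := by
  rw [act_eq d hd]
  exact app_opGen d hd _ _ _ _

include hd hu

lemma flatForm_opEx (a b : ℝ) :
    HasFlatForm (fn d) (opEx d u a b) u (gEx u a b) (cFlat R b) := by
  refine ⟨isUnit_jacobian_coord d u hu, fun f i => ?_⟩
  rw [actIn_coord d u hu, act_opEx d u a b f i hd]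
  simp only [totD_eq, cFlat_sum d u hu]

lemma isDarboux_opEx (a : ℝ) : IsDarboux (fn d) (opEx d u a 0) := by
  refine ⟨u, gEx u a 0, ?_⟩
  have h := flatForm_opEx d hd u hu a 0
  have h0 : cFlat R 0 = fun _ _ _ => 0 := by
    funext i j r
    simp [cFlat]
  rwa [h0] at h

/-- the operator has no flat coordinates in which the lower order part vanishes -/
lemma not_isDarboux_opEx (φ : R →+* ℝ) : ¬ IsDarboux (fn d) (opEx d u 1 1) := by
  rintro ⟨v, g, hv, h⟩
  -- the Jacobian matrix
  set Jc : Fin 4 → Fin 4 → R := fun a i => d i (v a) with hJ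
  have hjac : ∀ a i, jacobian (fn d) v a i = Jc a i := fun a i => rfl
  have hunit' : IsUnit (Matrix.det (Matrix.of fun a i => (C (Jc a i) : DPoly 4 R))) := by
    have : Matrix.det (Matrix.of fun a i => (C (Jc a i) : DPoly 4 R))
        = C (Matrix.det (jacobian (fn d) v)) := by
      have := RingHom.map_det (C : R →+* DPoly 4 R) (jacobian (fn d) v)
      exact this.symm
    rw [this]
    exact hv.map C
  -- step 1: the Jacobian is constant
  have hy : ∀ b i, act (fn d) (opEx d u 1 1) (fun j => C (Jc b j)) i = 0 := by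
    intro b
    have h1 : ∀ a, ∑ i, C (Jc a i) * act (fn d) (opEx d u 1 1) (fun j => C (Jc b j)) i = 0 := by
      intro a
      have h2 := h (fun b' => if b' = b then 1 else 0) a
      rw [actIn] at h2
      simp only [mul_ite, mul_one, mul_zero, Finset.sum_ite_eq', Finset.mem_univ, if_true,
        hjac] at h2
      rw [h2]
      apply Finset.sum_eq_zero
      intro b' _
      simp only [totD_eq]
      split_ifs <;> simp
    have h3 : (Matrix.of fun a i => (C (Jc a i) : DPoly 4 R)).mulVec
        (act (fn d) (opEx d u 1 1) (fun j => C (Jc b j))) = 0 := by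
      funext a
      exact h1 a
    have h4 := Matrix.eq_zero_of_det_mem_nonZeroDivisors_of_mulVec_eq_zero
      (hunit'.mem_nonZeroDivisors) h3
    intro i
    rw [h4]
    rfl
  have d2 : ∀ b k, d k (Jc b 2) = 0 := by
    intro b k
    have h5 := hy b 0
    rw [act_opEx d u 1 1 _ _ hd, Fin.sum_univ_four] at h5
    apply d_eq_zero_of_D3 d hd
    simpa [gEx, cEx] using h5
  have d3 : ∀ b k, d k (Jc b 3) = 0 := by
    intro b k
    have h5 := hy b 1
    rw [act_opEx d u 1 1 _ _ hd, Fin.sum_univ_four] at h5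
    apply d_eq_zero_of_D3 d hd
    simpa [gEx, cEx] using h5
  have e2 : ∀ b, gTotD d (C (Jc b 2)) = 0 := fun b => D_C_eq_zero d (d2 b)
  have e3 : ∀ b, gTotD d (C (Jc b 3)) = 0 := fun b => D_C_eq_zero d (d3 b)
  have d0 : ∀ b k, d k (Jc b 0) = 0 := by
    intro b k
    have h5 := hy b 2
    rw [act_opEx d u 1 1 _ _ hd, Fin.sum_univ_four] at h5
    apply d_eq_zero_of_D3 d hd
    simpa [gEx, cEx, e2, e3] using h5
  have d1 : ∀ b k, d k (Jc b 1) = 0 := by
    intro b k
    have h5 := hy b 3
    rw [act_opEx d u 1 1 _ _ hd, Fin.sum_univ_four] at h5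
    apply d_eq_zero_of_D3 d hd
    simpa [gEx, cEx, e2, e3] using h5
  have hdd : ∀ b i, gTotD d (C (Jc b i)) = 0 := by
    intro b i
    fin_cases i
    · exact D_C_eq_zero d (d0 b)
    · exact D_C_eq_zero d (d1 b)
    · exact e2 b
    · exact e3 b
  have hd' : ∀ b i (x : DPoly 4 R), gTotD d (C (Jc b i) * x) = C (Jc b i) * gTotD d x := by
    intro b i x
    rw [Derivation.leibniz, hdd]
    simp
  -- step 2: the third column of the Jacobian squares to zero
  have hJ2 : ∀ a, Jc a 2 * Jc a 2 = 0 := by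
    intro a
    have h2 := h (fun b' => if b' = a then C (u 0) else 0) a
    rw [actIn] at h2
    simp only [mul_ite, mul_zero, Finset.sum_ite_eq', Finset.mem_univ, if_true, hjac] at h2
    have hl : ∑ i, C (Jc a i) * act (fn d) (opEx d u 1 1) (fun j => C (Jc a j) * C (u 0)) i
        = gTotD d (∑ i, ∑ j, C (Jc a i) * (C (gEx u 1 1 i j) * (C (Jc a j) * X (0, 1))
          + cEx R 1 i j * (C (Jc a j) * X (0, 0)))) := by
      rw [map_sum]
      refine Finset.sum_congr rfl fun i _ => ?_
      rw [act_opEx d u 1 1 _ _ hd, Finset.mul_sum, map_sum]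
      refine Finset.sum_congr rfl fun j _ => ?_
      rw [hd', hd', hd', D_U d u hu, gTotD_X]
    have hr : ∑ b, totD (fn d) (C (g a b) * totD (fn d) (totD (fn d)
            (if b = a then C (u 0) else 0))
          + (∑ r, C (0 : R) * totD (fn d) (C (v r))) * totD (fn d) (if b = a then C (u 0) else 0))
        = gTotD d (C (g a a) * X (0, 1)) := by
      simp only [totD_eq]
      rw [Finset.sum_eq_single a]
      · rw [if_pos rfl, D_U d u hu, gTotD_X]
        simp
      · intro b _ hb
        rw [if_neg hb]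
        simp
      · intro ha
        exact absurd (Finset.mem_univ a) ha
    rw [hl, hr, ← sub_eq_zero, ← map_sub] at h2
    have h3 := (gJet d hd).ker h2 1 1
    change pderiv (1, 0) _ = 0 at h3
    simp [Fin.sum_univ_four, gEx, cEx, K] at h3
    rw [← mul_assoc, ← C_mul] at h3
    have h4 := congrArg (coeff (Finsupp.single ((0 : Fin 4), 0) 1)) h3
    rw [coeff_C_mul, coeff_zero] at h4
    simpa using h4
  have hJ2' : ∀ a, φ (Jc a 2) = 0 := by
    intro a
    have := congrArg φ (hJ2 a)
    rw [map_mul, map_zero] at this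
    exact mul_self_eq_zero.mp this
  have hdet : φ (jacobian (fn d) v).det = 0 := by
    rw [RingHom.map_det]
    exact Matrix.det_eq_zero_of_column_eq_zero 2 hJ2'
  have := hv.map φ
  rw [hdet] at this
  exact not_isUnit_zero this

end DarbouxEx

end Pool.Agent.H.MP_1a410c_mp
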